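import Mathlib
import Pool.Agent.W458.FJ.Stm

/-!
The bound of Brauer for three generators.
-/

set_option autoImplicit false

namespace Pool.Agent.W33.FJ.SG3

theorem main : Pool.Agent.W458.FJ.SG3 := by
  intro a b w n ha hb hw hg hn
  have hg0 : 0 < Nat.gcd a b := Nat.gcd_pos_of_pos_left _ ha
  obtain ⟨a1, ha1⟩ : Nat.gcd a b ∣ a := Nat.gcd_dvd_left a b
  obtain ⟨b1, hb1⟩ : Nat.gcd a b ∣ b := Nat.gcd_dvd_right a b
  generalize hgd : Nat.gcd a b = g at *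
  have hcop : Nat.gcd a1 b1 = 1 := by
    have h1 : Nat.gcd (g * a1) (g * b1) = g * Nat.gcd a1 b1 := Nat.gcd_mul_left g a1 b1
    rw [← ha1, ← hb1, hgd] at h1
    have h2 : g * 1 = g * Nat.gcd a1 b1 := by rw [mul_one]; exact h1
    exact (Nat.eq_of_mul_eq_mul_left hg0 h2).symm
  have hlcm : Nat.lcm a b = g * (a1 * b1) := by
    rw [ha1, hb1, Nat.lcm_mul_left, Nat.Coprime.lcm_eq_mul hcop]
  have hlcm2 : Nat.lcm g w = g * w := Nat.Coprime.lcm_eq_mul hg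
  have ha10 : 0 < a1 := by
    rcases Nat.eq_zero_or_pos a1 with h | h
    · rw [h, mul_zero] at ha1
      omega
    · exact h
  have hb10 : 0 < b1 := by
    rcases Nat.eq_zero_or_pos b1 with h | h
    · rw [h, mul_zero] at hb1
      omega
    · exact h
  rw [hlcm, hlcm2] at hn
  have hbez := Nat.gcd_eq_gcd_ab g w
  rw [hg] at hbez
  set A : ℤ := Nat.gcdA g w
  set B : ℤ := Nat.gcdB g w
  have hgZ : (0 : ℤ) < (g : ℤ) := by exact_mod_cast hg0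
  have hu0 : 0 ≤ ((n : ℤ) * B) % (g : ℤ) := Int.emod_nonneg _ hgZ.ne'
  have hu1 : ((n : ℤ) * B) % (g : ℤ) < (g : ℤ) := Int.emod_lt_of_pos _ hgZ
  have hdiv : (g : ℤ) * (((n : ℤ) * B) / (g : ℤ)) + ((n : ℤ) * B) % (g : ℤ) = (n : ℤ) * B :=
    Int.mul_ediv_add_emod _ _
  obtain ⟨u, hu⟩ := Int.eq_ofNat_of_zero_le hu0
  rw [hu] at hu1 hdiv
  set k : ℤ := ((n : ℤ) * B) / (g : ℤ)
  have hn1 : (n : ℤ) - (u : ℤ) * (w : ℤ) = (g : ℤ) * ((n : ℤ) * A + k * (w : ℤ)) := by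
    have h1 : (1 : ℤ) = (g : ℤ) * A + (w : ℤ) * B := by exact_mod_cast hbez
    linear_combination (n : ℤ) * h1 - (w : ℤ) * hdiv
  set n1 : ℤ := (n : ℤ) * A + k * (w : ℤ) with hn1def
  have haZ : (a : ℤ) = (g : ℤ) * (a1 : ℤ) := by exact_mod_cast ha1
  have hbZ : (b : ℤ) = (g : ℤ) * (b1 : ℤ) := by exact_mod_cast hb1
  have hnZ : (g : ℤ) * ((a1 : ℤ) * (b1 : ℤ)) + (g : ℤ) * (w : ℤ) + 1 ≤
      (n : ℤ) + (a : ℤ) + (b : ℤ) + (w : ℤ) := by exact_mod_cast hn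
  have huw : (u : ℤ) * (w : ℤ) ≤ ((g : ℤ) - 1) * (w : ℤ) := by
    apply mul_le_mul_of_nonneg_right _ (by positivity)
    omega
  have hpos : 0 < (g : ℤ) * (n1 - (a1 : ℤ) * (b1 : ℤ) + (a1 : ℤ) + (b1 : ℤ)) := by
    have h2 : (g : ℤ) * (n1 - (a1 : ℤ) * (b1 : ℤ) + (a1 : ℤ) + (b1 : ℤ)) =
        (g : ℤ) * n1 - (g : ℤ) * ((a1 : ℤ) * (b1 : ℤ)) + (g : ℤ) * (a1 : ℤ) +
          (g : ℤ) * (b1 : ℤ) := by ring
    rw [h2, ← hn1, ← haZ, ← hbZ]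
    have h3 : ((g : ℤ) - 1) * (w : ℤ) = (g : ℤ) * (w : ℤ) - (w : ℤ) := by ring
    rw [h3] at huw
    linarith
  have hpos2 : 0 < n1 - (a1 : ℤ) * (b1 : ℤ) + (a1 : ℤ) + (b1 : ℤ) :=
    pos_of_mul_pos_right hpos hgZ.le
  have ha1Z : (1 : ℤ) ≤ (a1 : ℤ) := by exact_mod_cast ha10
  have hb1Z : (1 : ℤ) ≤ (b1 : ℤ) := by exact_mod_cast hb10
  have hge : ((a1 : ℤ) - 1) * ((b1 : ℤ) - 1) ≤ n1 := by
    have h4 : ((a1 : ℤ) - 1) * ((b1 : ℤ) - 1) = (a1 : ℤ) * (b1 : ℤ) - (a1 : ℤ) - (b1 : ℤ) + 1 := by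
      ring
    rw [h4]
    linarith
  have hn10 : 0 ≤ n1 := le_trans (mul_nonneg (by linarith) (by linarith)) hge
  obtain ⟨N, hN⟩ := Int.eq_ofNat_of_zero_le hn10
  have hle : a1.pred * b1.pred ≤ N := by
    have h5 : ((a1.pred : ℕ) : ℤ) = (a1 : ℤ) - 1 := by
      rw [Nat.pred_eq_sub_one, Nat.cast_sub ha10, Nat.cast_one]
    have h6 : ((b1.pred : ℕ) : ℤ) = (b1 : ℤ) - 1 := by
      rw [Nat.pred_eq_sub_one, Nat.cast_sub hb10, Nat.cast_one]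
    have h7 : ((a1.pred * b1.pred : ℕ) : ℤ) ≤ (N : ℤ) := by
      rw [Nat.cast_mul, h5, h6, ← hN]
      exact hge
    exact_mod_cast h7
  obtain ⟨s, t, hst⟩ := Nat.exists_add_mul_eq_of_gcd_dvd_of_mul_pred_le a1 b1 N
    (by rw [hcop]; exact one_dvd _) hle
  refine ⟨s, t, u, ?_⟩
  have h8 : (n : ℤ) = (s : ℤ) * (a : ℤ) + (t : ℤ) * (b : ℤ) + (u : ℤ) * (w : ℤ) := by
    have h9 : (s : ℤ) * (a1 : ℤ) + (t : ℤ) * (b1 : ℤ) = (N : ℤ) := by exact_mod_cast hst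
    rw [haZ, hbZ]
    have h10 : (n : ℤ) - (u : ℤ) * (w : ℤ) = (g : ℤ) * (N : ℤ) := by
      rw [hn1]
      congr 1
    linear_combination h10 - (g : ℤ) * h9
  exact_mod_cast h8

end Pool.Agent.W33.FJ.SG3
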